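import Pool.Agent.Helper99.WP.GoalsK

/-!
# WP, packet GCM: rules for the Green operator
-/

open Finset

namespace Pool.Agent.Helper11.WP

open Pool.Agent.Helper99.WP Pool.Agent.Helper99.ERW

theorem lap_lin {d : ℕ} (p : Site d → Fin d → ℝ) (u v : Site d → ℝ) (a b : ℝ) (x : Site d) :
    lap p (fun z => a * u z + b * v z) x = a * lap p u x + b * lap p v x := by
  unfold lap
  rw [mul_sum, mul_sum, ← sum_add_distrib]
  refine sum_congr rfl fun l _ => ?_
  ring

theorem lap_zero {d : ℕ} (p : Site d → Fin d → ℝ) (x : Site d) :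
    lap p (fun _ => (0 : ℝ)) x = 0 := by
  unfold lap
  refine sum_eq_zero fun l _ => ?_
  ring

section

variable {d : ℕ} {κ : ℝ} {p : Site d → Fin d → ℝ}

theorem r1 (hM : MXP_stmt) (hG : GEX_stmt) (hκ : 0 < κ) (hp : Ell κ p) (D : Finset (Site d))
    (f u : Site d → ℝ) (h1 : ∀ x ∈ D, - lap p u x ≤ f x) (h2 : Bd D (fun x => u x ≤ 0)) :
    ∀ x ∈ D, u x ≤ Gr p D f x := by
  obtain ⟨⟨ho, hs⟩, -⟩ := hG d κ p hκ hp D f
  have h3 := hM d κ p hκ hp D (fun z => 1 * u z + (-1) * Gr p D f z) (by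
    intro x hx
    rw [lap_lin, hs x hx]
    have := h1 x hx
    linarith) (by
    intro x hx l
    obtain ⟨h4, h5⟩ := h2 x hx l
    refine ⟨fun h6 => ?_, fun h6 => ?_⟩
    · have h7 := h4 h6
      simp only [ho _ h6]
      simp only at h7
      linarith
    · have h7 := h5 h6
      simp only [ho _ h6]
      simp only at h7
      linarith)
  intro x hx
  have h4 := h3 x hx
  linarith

theorem r2 (hM : MXP_stmt) (hG : GEX_stmt) (hκ : 0 < κ) (hp : Ell κ p) (D : Finset (Site d))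
    (f u : Site d → ℝ) (h1 : ∀ x ∈ D, f x ≤ - lap p u x) (h2 : Bd D (fun x => 0 ≤ u x)) :
    ∀ x ∈ D, Gr p D f x ≤ u x := by
  obtain ⟨⟨ho, hs⟩, -⟩ := hG d κ p hκ hp D f
  have h3 := hM d κ p hκ hp D (fun z => 1 * Gr p D f z + (-1) * u z) (by
    intro x hx
    rw [lap_lin, hs x hx]
    have := h1 x hx
    linarith) (by
    intro x hx l
    obtain ⟨h4, h5⟩ := h2 x hx l
    refine ⟨fun h6 => ?_, fun h6 => ?_⟩
    · have h7 := h4 h6
      simp only [ho _ h6]
      simp only at h7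
      linarith
    · have h7 := h5 h6
      simp only [ho _ h6]
      simp only at h7
      linarith)
  intro x hx
  have h4 := h3 x hx
  linarith

theorem r3 (hM : MXP_stmt) (hG : GEX_stmt) (hκ : 0 < κ) (hp : Ell κ p) (D : Finset (Site d))
    (f g : Site d → ℝ) (h : ∀ x ∈ D, f x ≤ g x) : ∀ x, Gr p D f x ≤ Gr p D g x := by
  obtain ⟨⟨ho, hs⟩, -⟩ := hG d κ p hκ hp D f
  obtain ⟨⟨ho', hs'⟩, -⟩ := hG d κ p hκ hp D g
  intro x
  by_cases hx : x ∈ D
  · refine r1 hM hG hκ hp D g (Gr p D f) (fun y hy => ?_) (fun y hy l => ⟨fun h6 => ?_, fun h6 => ?_⟩) x hx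
    · rw [hs y hy]
      have := h y hy
      linarith
    · exact (ho _ h6).le
    · exact (ho _ h6).le
  · rw [ho x hx, ho' x hx]

theorem r4 (hM : MXP_stmt) (hG : GEX_stmt) (hκ : 0 < κ) (hp : Ell κ p) (D : Finset (Site d))
    (f : Site d → ℝ) (h : ∀ x ∈ D, 0 ≤ f x) : ∀ x, 0 ≤ Gr p D f x := by
  obtain ⟨⟨ho, hs⟩, -⟩ := hG d κ p hκ hp D f
  intro x
  by_cases hx : x ∈ D
  · refine r1 hM hG hκ hp D f (fun _ => (0 : ℝ)) (fun y hy => ?_) (fun y hy l => ⟨fun h6 => ?_, fun h6 => ?_⟩) x hx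
    · rw [lap_zero]
      have := h y hy
      linarith
    · exact le_rfl
    · exact le_rfl
  · rw [ho x hx]

theorem r5 (hG : GEX_stmt) (hκ : 0 < κ) (hp : Ell κ p) (D : Finset (Site d))
    (f g : Site d → ℝ) (a b : ℝ) :
    Gr p D (fun x => a * f x + b * g x) = fun x => a * Gr p D f x + b * Gr p D g x := by
  obtain ⟨⟨ho, hs⟩, -⟩ := hG d κ p hκ hp D f
  obtain ⟨⟨ho', hs'⟩, -⟩ := hG d κ p hκ hp D g
  obtain ⟨-, hu⟩ := hG d κ p hκ hp D (fun x => a * f x + b * g x)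
  refine (hu _ ⟨fun x hx => ?_, fun x hx => ?_⟩).symm
  · simp only [ho x hx, ho' x hx]
    ring
  · rw [lap_lin, hs x hx, hs' x hx]
    ring

end

theorem GCM (hMXP : MXP_stmt) (hGEX : GEX_stmt) : GCM_stmt := by
  intro d κ p hκ hp D
  refine ⟨r1 hMXP hGEX hκ hp D, r2 hMXP hGEX hκ hp D, r3 hMXP hGEX hκ hp D,
    r4 hMXP hGEX hκ hp D, r5 hGEX hκ hp D, ?_, ?_⟩
  · intro D' hD f hf x
    obtain ⟨⟨ho, hs⟩, -⟩ := hGEX d κ p hκ hp D f
    obtain ⟨⟨ho', hs'⟩, -⟩ := hGEX d κ p hκ hp D' f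
    have h4 := r4 hMXP hGEX hκ hp D' f hf
    by_cases hx : x ∈ D
    · refine r2 hMXP hGEX hκ hp D f (Gr p D' f) (fun y hy => ?_)
        (fun y hy l => ⟨fun h6 => h4 _, fun h6 => h4 _⟩) x hx
      rw [hs' y (hD hy)]
      linarith
    · rw [ho x hx]
      exact h4 x
  · intro s
    induction s using Finset.induction_on with
    | empty =>
      intro x
      obtain ⟨-, hu⟩ := hGEX d κ p hκ hp D (ind ∅)
      have h1 : (fun _ : Site d => (0 : ℝ)) = Gr p D (ind ∅) :=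
        hu _ ⟨fun x hx => rfl, fun x hx => by rw [lap_zero]; simp [ind]⟩
      rw [← h1, sum_empty]
    | insert a s ha ih =>
      intro x
      have h1 : (ind (insert a s) : Site d → ℝ) = fun z => 1 * ind {a} z + 1 * ind s z := by
        funext z
        unfold ind
        by_cases hz : z = a
        · subst hz
          simp [ha]
        · simp [hz]
      rw [h1, r5 hGEX hκ hp D (ind {a}) (ind s) 1 1, sum_insert ha, ← ih x]
      unfold gg
      ring

end Pool.Agent.Helper11.WP
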